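import Pool.Agent.Helper76.SGC.Goals
import Pool.Agent.Helper29.BL.PS

set_option autoImplicit false

open MvPolynomial

namespace Pool.Agent.Helper37.SGC1

open WeierstrassCurve Height
open Pool.Agent.Helper29.BL Pool.Agent.Helper92.Ru Pool.Agent.Helper42.SG
open Pool.Agent.Helper77.SGC (Arr sh N0 Forb HOUS MON)
open Pool.Agent.Helper76.SGC

noncomputable section

lemma keyB_nonneg (n k0 : ℕ) (e : ℕ → ℕ) (a : ℕ → ℝ) (ha : ∀ h < 2 * n + 2, 1 ≤ a h) :
    0 ≤ keyB n k0 e a := by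
  unfold keyB
  have p : ∀ h < 2 * n + 2, 0 ≤ a h := fun h hh => le_trans zero_le_one (ha h hh)
  have p0 := p (2 * n) (by omega)
  have p1 := p (2 * n + 1) (by omega)
  refine mul_nonneg (Finset.prod_nonneg fun j hj => ?_) (pow_nonneg (mul_nonneg p0 p1) _)
  have hj' := Finset.mem_range.1 hj
  have q0 := p (2 * j) (by omega)
  have q1 := p (2 * j + 1) (by omega)
  exact div_nonneg (mul_nonneg (pow_nonneg (mul_nonneg q0 q1) _)
    (pow_nonneg (mul_nonneg p0 p1) _)) (pow_nonneg (le_min q0 q1) _)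

lemma prod_two (f : ℕ → ℝ) (n : ℕ) :
    ∏ h : Fin (2 * n), f h.val = ∏ j ∈ Finset.range n, (f (2 * j) * f (2 * j + 1)) := by
  rw [Fin.prod_univ_eq_prod_range f (2 * n)]
  induction n with
  | zero => simp
  | succ n ih =>
    rw [Finset.prod_range_succ, ← ih, show 2 * (n + 1) = 2 * n + 1 + 1 by ring,
      Finset.prod_range_succ, Finset.prod_range_succ]
    ring

lemma prodB (n : ℕ) (e : ℕ → ℕ) (b : ℕ → ℝ) :
    (∏ h : Fin (2 * n), (b (h.val % 2)) ^ (4 ^ e (h.val / 2) * n)) =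
      ((b 0 * b 1) ^ n) ^ sq n e := by
  rw [prod_two (fun h => (b (h % 2)) ^ (4 ^ e (h / 2) * n)) n]
  unfold Pool.Agent.Helper42.SG.sq
  rw [← Finset.prod_pow_eq_pow_sum]
  refine Finset.prod_congr rfl fun j _ => ?_
  have h1 : (2 * j) % 2 = 0 := by omega
  have h2 : (2 * j) / 2 = j := by omega
  have h3 : (2 * j + 1) % 2 = 1 := by omega
  have h4 : (2 * j + 1) / 2 = j := by omega
  simp only [h1, h2, h3, h4]
  rw [← mul_pow, ← pow_mul, mul_comm n]

lemma br_zero {K A : Type} [Field K] [CommRing A] [Algebra K A] (W : ℕ → Affine K)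
    (B : ℕ → AbsoluteValue K ℝ → ℝ) (D : ℕ → ℕ) (n : ℕ) (e : ℕ → ℕ)
    (G : ℕ → Bool → ℕ → Fin 2 → ℕ → ℕ → K) (hG : ArrV W B D n e G) (c : Idx n n n e → K)
    (lam : ℕ → Bool) (X : ℕ → A) (μ : Fin (2 * n) → Fin 2) (i : Fin (2 * n) → ℕ)
    (h : Fin (2 * n)) (hh : ¬ i h + 2 * (μ h).val ≤ N0 n (e (h.val / 2))) :
    Br n e G c lam X μ i = 0 := by
  unfold Br
  refine Finset.sum_eq_zero fun α _ => ?_
  have : (∏ h : Fin (2 * n), ∑ g ∈ Finset.range (2 * n + 1),
      algebraMap K A (sh (G h.val) (lam h.val) (μ h) (i h) g (α.1 h).1.val (α.1 h).2.val) *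
        X (2 * n + h.val % 2) ^ g) = 0 := by
    refine Finset.prod_eq_zero (Finset.mem_univ h) (Finset.sum_eq_zero fun g _ => ?_)
    have hz : sh (G h.val) (lam h.val) (μ h) (i h) g (α.1 h).1.val (α.1 h).2.val = 0 := by
      by_contra hne
      apply hh
      unfold sh at hne
      split_ifs at hne with hle
      · have hA := hG h.val h.isLt
        have hd := (hA.deg (lam h.val) (α.1 h).2.val (Nat.lt_succ_iff.1 (α.1 h).2.isLt) _ _ _ hne).1
        have hl := (α.1 h).1.isLt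
        have e1 : N0 n (e (h.val / 2)) = 2 * 4 ^ e (h.val / 2) * n + 4 ^ e (h.val / 2) := rfl
        rw [e1]
        omega
      · exact absurd rfl hne
    rw [hz, map_zero, zero_mul]
  rw [this, mul_zero, zero_mul]

theorem keya (h1 : EXPA) (h2 : VANA) (h3 : NFB) (h4 : BRN) (h5 : PRN) (h6 : CNTA) : KEYA := by
  intro K _ _ W B D n k0 hB hn
  obtain ⟨C, hC1, hC⟩ := h6 n hn
  have hB1 : ∀ i v, 1 ≤ B i v := fun i v => (hB i).one_le v
  refine ⟨fun v => cst v C * (B 0 v * B 1 v) ^ n, ⟨?_, ?_⟩, ?_⟩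
  · intro v
    have := one_le_cst v hC1
    have h7 : 1 ≤ (B 0 v * B 1 v) ^ n :=
      one_le_pow₀ (one_le_mul_of_one_le_of_one_le (hB1 0 v) (hB1 1 v))
    exact one_le_mul_of_one_le_of_one_le this h7
  · have h8 : FS (K := K) (fun v => Real.log (cst v C) +
        (n : ℝ) * (Real.log (B 0 v) + Real.log (B 1 v))) :=
      (FS_log_cst C).add (((hB 0).fin.add (hB 1).fin).const_mul _)
    refine h8.mono fun v _ hv => ?_
    have c0 : cst v C ≠ 0 := (cst_pos v hC1).ne'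
    have b0 : B 0 v ≠ 0 := (lt_of_lt_of_le one_pos (hB1 0 v)).ne'
    have b1 : B 1 v ≠ 0 := (lt_of_lt_of_le one_pos (hB1 1 v)).ne'
    rw [Real.log_mul c0 (pow_ne_zero _ (mul_ne_zero b0 b1)), Real.log_pow,
      Real.log_mul b0 b1]
    exact hv
  intro e G hG c hc v A _ _ N hN X Ψ a s b hOn ha hb hX hΨ hs lam
  obtain ⟨n0, n1, npow, nprod, nsum⟩ := h3 K v A N hN
  have hs0 : 0 ≤ s := by
    have α : Idx n n n e := (fun h => (⟨0, by positivity⟩, ⟨0, by omega⟩), fun _ => ⟨0, by omega⟩)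
    exact le_trans (v.nonneg _) (hs α)
  have hkB := keyB_nonneg n k0 e a ha
  have hcard1 : (1 : ℝ) ≤ (Fintype.card (Idx n n n e) : ℝ) * (2 * n + 1) ^ (2 * n) := by
    have α : Idx n n n e := (fun h => (⟨0, by positivity⟩, ⟨0, by omega⟩), fun _ => ⟨0, by omega⟩)
    have hc0 : 1 ≤ Fintype.card (Idx n n n e) := Fintype.card_pos_iff.2 ⟨α⟩
    have hc1 : (1 : ℝ) ≤ (Fintype.card (Idx n n n e) : ℝ) := by exact_mod_cast hc0
    refine one_le_mul_of_one_le_of_one_le hc1 (one_le_pow₀ ?_)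
    have : (0 : ℝ) ≤ n := Nat.cast_nonneg n
    linarith
  set P := ∏ h : Fin (2 * n), (B (h.val % 2) v) ^ (4 ^ e (h.val / 2) * n) with hP
  have hP0 : 0 ≤ P := Finset.prod_nonneg fun h _ => pow_nonneg (le_trans zero_le_one (hB1 _ _)) _
  set Q := cst v ((Fintype.card (Idx n n n e) : ℝ) * (2 * n + 1) ^ (2 * n)) with hQ
  have hQ0 : 0 ≤ Q := (cst_pos v hcard1).le
  set T0 := Q * s * P * (b ^ (4 * n) * keyB n k0 e a) with hT0
  have hT : 0 ≤ T0 := by
    have : 0 ≤ b := le_trans zero_le_one hb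
    positivity
  rw [h1 K W B D n e G hG c A X Ψ hOn lam]
  -- every term
  have hterm : ∀ μ : Fin (2 * n) → Fin 2, ∀ i : Fin (2 * n) → ℕ,
      N ((∏ h : Fin (2 * n), ((Ψ h.val * Ψ (2 * n + h.val % 2)) ^ (μ h).val *
              X h.val ^ (i h))) * Br n e G c lam X μ i) T0 := by
    intro μ i
    by_cases c1 : ∀ h : Fin (2 * n), i h + 2 * (μ h).val ≤ N0 n (e (h.val / 2))
    swap
    · push Not at c1
      obtain ⟨h, hh⟩ := c1
      rw [br_zero W B D n e G hG c lam X μ i h (by omega), mul_zero]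
      exact hN.mono 0 0 T0 n0 hT
    by_cases c2 : ∀ j : Fin n, ¬ Forb n k0 (e j.val) (μ (hz j)) (μ (ho j)) (i (hz j)) (i (ho j))
    swap
    · push Not at c2
      obtain ⟨j, hj⟩ := c2
      rw [h2 K W B D n k0 e G hG c hc A lam X μ i j hj, mul_zero]
      exact hN.mono 0 0 T0 n0 hT
    have hbr := h4 K W B D n e G hG hB1 hn c v A N hN X a s ha hX hs lam μ i
    have hpr := h5 n k0 e a b μ i hn ha hb c1 c2
    have hpN : N (∏ h : Fin (2 * n), ((Ψ h.val * Ψ (2 * n + h.val % 2)) ^ (μ h).val *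
              X h.val ^ (i h)))
        (∏ h : Fin (2 * n), ((b * a h.val ^ 2 * (b * a (2 * n + h.val % 2) ^ 2)) ^ (μ h).val *
        a h.val ^ (i h))) := by
      refine nprod _ Finset.univ _ _ fun h _ => ?_
      have hh := h.isLt
      have hm : h.val % 2 < 2 := Nat.mod_lt _ (by norm_num)
      exact hN.mul _ _ _ _ (npow _ _ (hN.mul _ _ _ _ (hΨ h.val (by omega))
        (hΨ (2 * n + h.val % 2) (by omega))) _) (npow _ _ (hX h.val (by omega)) _)
    refine hN.mono _ _ _ (hN.mul _ _ _ _ hpN hbr) ?_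
    rw [← hQ, ← hP]
    calc _ = Q * s * P * ((∏ h : Fin (2 * n),
            ((b * a h.val ^ 2 * (b * a (2 * n + h.val % 2) ^ 2)) ^ (μ h).val * a h.val ^ (i h))) *
            ((∏ h : Fin (2 * n), a (2 * n + h.val % 2) ^ (2 * n - 2 * (μ h).val)) *
            (a (2 * n) * a (2 * n + 1)) ^ n)) := by ring
      _ ≤ Q * s * P * (b ^ (4 * n) * keyB n k0 e a) :=
          mul_le_mul_of_nonneg_left hpr (by positivity)
  have hinner : ∀ μ : Fin (2 * n) → Fin 2, N (∑ i ∈ Fintype.piFinset (fun h : Fin (2 * n) =>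
      Finset.range (N0 n (e (h.val / 2)) + 1)),
      (∏ h : Fin (2 * n), ((Ψ h.val * Ψ (2 * n + h.val % 2)) ^ (μ h).val *
              X h.val ^ (i h))) * Br n e G c lam X μ i)
      (cst v ((Fintype.piFinset (fun h : Fin (2 * n) =>
        Finset.range (N0 n (e (h.val / 2)) + 1))).card : ℝ) * T0) := fun μ =>
    nsum _ _ _ _ hT fun i _ => hterm μ i
  have hpi1 : (1 : ℝ) ≤ ((Fintype.piFinset (fun h : Fin (2 * n) =>
        Finset.range (N0 n (e (h.val / 2)) + 1))).card : ℝ) := by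
    have : 1 ≤ (Fintype.piFinset (fun h : Fin (2 * n) =>
        Finset.range (N0 n (e (h.val / 2)) + 1))).card := by
      refine Finset.card_pos.2 ⟨fun _ => 0, ?_⟩
      rw [Fintype.mem_piFinset]
      intro h
      simp
    exact_mod_cast this
  have hout := nsum _ (Finset.univ : Finset (Fin (2 * n) → Fin 2)) _ _
    (mul_nonneg (cst_pos v hpi1).le hT) fun μ _ => hinner μ
  refine hN.mono _ _ _ hout ?_
  rw [Finset.card_univ, hT0, prodB n e (fun i => B i v)] at *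
  have hcst : cst v ((Fintype.card (Fin (2 * n) → Fin 2) : ℕ) : ℝ) *
      cst v ((Fintype.piFinset (fun h : Fin (2 * n) =>
        Finset.range (N0 n (e (h.val / 2)) + 1))).card : ℝ) * Q ≤ cst v C ^ sq n e := by
    rw [hQ, ← cst_mul, ← cst_mul, ← cst_pow]
    exact cst_mono v (hC e)
  have hb0 : 0 ≤ b := le_trans zero_le_one hb
  have hBB : 0 ≤ ((B 0 v * B 1 v) ^ n) ^ sq n e :=
    pow_nonneg (pow_nonneg (mul_nonneg (le_trans zero_le_one (hB1 0 v))
      (le_trans zero_le_one (hB1 1 v))) _) _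
  calc _ = (cst v ((Fintype.card (Fin (2 * n) → Fin 2) : ℕ) : ℝ) *
      cst v ((Fintype.piFinset (fun h : Fin (2 * n) =>
        Finset.range (N0 n (e (h.val / 2)) + 1))).card : ℝ) * Q) *
        (s * ((B 0 v * B 1 v) ^ n) ^ sq n e * (b ^ (4 * n) * keyB n k0 e a)) := by
        rw [hP]; ring
    _ ≤ cst v C ^ sq n e * (s * ((B 0 v * B 1 v) ^ n) ^ sq n e * (b ^ (4 * n) * keyB n k0 e a)) :=
        mul_le_mul_of_nonneg_right hcst (by positivity)
    _ = _ := by
        rw [mul_pow]; ring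

end

end Pool.Agent.Helper37.SGC1
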